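import Pool.Agent.Helper88.T1.Asm
import Pool.Agent.Helper79.T1.Val
import Pool.Agent.Helper79.T1.Ld
import Pool.Agent.Helper46.T1.Cra
import Pool.Agent.Helper37.T1.Fin
import Pool.Agent.Helper62.T1.Col

/-!
MP_e1889a_ag: derivations and the minimizer of the normalized volume, closure.
-/

set_option autoImplicit false

namespace Pool.Agent.Helper88.T1

open IsLocalRing Pool.Agent.Helper11.SY

theorem derivation_bound (R : Type) [CommRing R] [Algebra ℂ R] [IsDomain R] [IsLocalRing R]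
    [IsNoetherianRing R] [IsAdicComplete (maximalIdeal R) R]
    (hres : ∀ f : R, ∃ c : ℂ, f - algebraMap ℂ R c ∈ maximalIdeal R)
    (N : ℕ) (hN : 1 ≤ N) (hdim : ringKrullDim R = ((N : ℕ) : WithBot ℕ∞))
    (th : R [⋀^Fin N]→ₗ[ℂ] R) (hth : IsGen th) (w : CVal R) (A : ℝ) (hw : IsMinLe th w A)
    (D : Derivation ℂ R R) (f : R) : w.v f ≤ w.v (D f) + ((A / N : ℝ) : WithTop ℝ) :=
  s_T1 Pool.Agent.Helper79.T1.s_VAL Pool.Agent.Helper46.T1.s_CRA Pool.Agent.Helper79.T1.s_LD s_COL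
    Pool.Agent.Helper37.T1.s_FIN R hres N hN hdim th hth w A hw D f

end Pool.Agent.Helper88.T1
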