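import Pool.Agent.Helper88.T1.Df

/-!
MP_e1889a_ag: derivations and the minimizer of the normalized volume, assembly.
-/

set_option autoImplicit false

namespace Pool.Agent.Helper88.T1

open IsLocalRing Filter Pool.Agent.Helper11.SY

section Notions

variable {R : Type} [CommRing R] [Algebra ℂ R] [IsLocalRing R]

theorem LDLe.mono {N : ℕ} {th : R [⋀^Fin N]→ₗ[ℂ] R} {w : CVal R} {A B : ℝ} (h : LDLe th w A)
    (hAB : A ≤ B) : LDLe th w B := fun f =>
  (h f).trans (add_le_add le_rfl (by exact_mod_cast hAB))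

theorem IsMinLe.ne {N : ℕ} (hN : 1 ≤ N) {th : R [⋀^Fin N]→ₗ[ℂ] R} {w : CVal R} {A : ℝ}
    (h : IsMinLe th w A) : th ≠ 0 := by
  intro h0
  have h1 : LDLe th w (A / 2) := by
    intro f
    rw [h0, AlternatingMap.zero_apply, w.v.map_zero, top_add]
    exact le_top
  have h2 := h.min w (A / 2) (half_pos h.pos) h1
  have h3 : ENNReal.ofReal A ^ N ≤ ENNReal.ofReal (A / 2) ^ N :=
    (ENNReal.mul_le_mul_iff_left h.vpos.ne' h.vfin).mp h2
  rw [← ENNReal.ofReal_pow h.pos.le, ← ENNReal.ofReal_pow (half_pos h.pos).le] at h3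
  have h4 : 0 < (A / 2) ^ N := pow_pos (half_pos h.pos) N
  have h5 : A ^ N ≤ (A / 2) ^ N := (ENNReal.ofReal_le_ofReal_iff h4.le).mp h3
  have h6 : (A / 2) ^ N < A ^ N :=
    pow_lt_pow_left₀ (half_lt_self h.pos) (half_pos h.pos).le (by omega)
  linarith

end Notions

theorem one_sub_pow_le {z : ℝ} (h0 : 0 ≤ z) (h1 : z ≤ 1) (N : ℕ) :
    (1 - z) ^ N * (1 + N * z) ≤ 1 := by
  have h2 : 1 + (N : ℝ) * z ≤ (1 + z) ^ N := one_add_mul_le_pow (by linarith) N
  have h3 : 0 ≤ (1 - z) ^ N := pow_nonneg (by linarith) N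
  calc (1 - z) ^ N * (1 + N * z) ≤ (1 - z) ^ N * (1 + z) ^ N := by gcongr
    _ = (1 - z ^ 2) ^ N := by rw [← mul_pow]; ring_nf
    _ ≤ 1 := pow_le_one₀ (by nlinarith) (by nlinarith)

theorem s_T1 (hVAL : S_VAL) (hCRA : S_CRA) (hLD : S_LD) (hCOL : S_COL) (hFIN : S_FIN) : S_T1 := by
  intro R _ _ _ _ _ _ hres N hN hdim th hth w A hw D f₀
  by_contra hcon
  rw [not_le] at hcon
  have hne := hw.ne hN
  have hcra := hCRA R hres N hN hdim th hth D
  obtain ⟨δ₁, hδ₁⟩ := hFIN R N th hth hne D hcra w A hw.le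
  have hN' : (0 : ℝ) < N := by exact_mod_cast hN
  have hA := hw.pos
  -- real values
  have key : ∀ (g : R) (c : ℝ), w.v (D g) + (c : WithTop ℝ) < w.v g → ∃ x y : ℝ,
      w.v g = (x : WithTop ℝ) ∧ w.v (D g) = (y : WithTop ℝ) ∧ y + c < x := by
    intro g c hg
    have h1 : w.v (D g) ≠ ⊤ := by
      intro h
      rw [h, top_add] at hg
      exact absurd hg not_top_lt
    have h2 : w.v g ≠ ⊤ := by
      intro h
      have : g = 0 := w.top g h
      rw [this, map_zero, w.v.map_zero] at h1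
      exact h1 rfl
    obtain ⟨x, hx⟩ := WithTop.ne_top_iff_exists.mp h2
    obtain ⟨y, hy⟩ := WithTop.ne_top_iff_exists.mp h1
    refine ⟨x, y, hx.symm, hy.symm, ?_⟩
    rw [← hx, ← hy] at hg
    exact_mod_cast hg
  set Δ : Set ℝ := {δ | ∀ h, w.v h ≤ w.v (D h) + (δ : WithTop ℝ)} with hΔ
  have hΔne : Δ.Nonempty := ⟨δ₁, hδ₁⟩
  obtain ⟨x₀, y₀, hx₀, hy₀, hxy₀⟩ := key f₀ (A / N) hcon
  have hlow : ∀ δ ∈ Δ, x₀ - y₀ ≤ δ := by
    intro δ hδ
    have := hδ f₀
    rw [hx₀, hy₀] at this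
    have h2 : x₀ ≤ y₀ + δ := by exact_mod_cast this
    linarith
  have hbdd : BddBelow Δ := ⟨x₀ - y₀, fun δ hδ => hlow δ hδ⟩
  set δ : ℝ := sInf Δ with hδdef
  have hδ0 : x₀ - y₀ ≤ δ := le_csInf hΔne hlow
  have hδA : A / N < δ := by linarith
  have hδ' : ∀ h, w.v h ≤ w.v (D h) + (δ : WithTop ℝ) := by
    intro h
    by_contra hc
    rw [not_le] at hc
    obtain ⟨x, y, hx, hy, hxy⟩ := key h δ hc
    obtain ⟨δ₂, hδ₂, hlt⟩ := exists_lt_of_csInf_lt hΔne (show sInf Δ < x - y by linarith)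
    have := hδ₂ h
    rw [hx, hy] at this
    have h2 : x ≤ y + δ₂ := by exact_mod_cast this
    linarith
  -- a smaller constant
  obtain ⟨δ', h1, h2⟩ := exists_between hδA
  have hδ'pos : 0 < δ' := lt_trans (by positivity) h1
  set x : ℝ := δ' / A with hx
  have hNx : 1 < N * x := by
    rw [hx, ← mul_div_assoc, lt_div_iff₀ hA]
    rw [div_lt_iff₀ hN'] at h1
    linarith
  obtain ⟨q, hq⟩ := exists_nat_gt (max (δ' / A) (max 1 (N * x / (N * x - 1))))
  have hq1 : δ' / A < q := lt_of_le_of_lt (le_max_left _ _) hq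
  have hq2 : (1 : ℝ) < q := lt_of_le_of_lt ((le_max_left _ _).trans (le_max_right _ _)) hq
  have hq3 : N * x / (N * x - 1) < q :=
    lt_of_le_of_lt ((le_max_right _ _).trans (le_max_right _ _)) hq
  have hq0 : 1 ≤ q := by
    have : (1 : ℝ) ≤ q := hq2.le
    exact_mod_cast this
  have hqp : (0 : ℝ) < (q : ℝ) + 1 := by positivity
  have hδpos : 0 < δ := lt_trans (by positivity) hδA
  set s : ℝ := δ * q / (q + 1) with hs
  have hs0 : 0 < s := by positivity
  obtain ⟨u, hu⟩ := hVAL R w D s hs0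
  have hvol := hCOL R hres N w u D δ q hN hδpos hq0 hδ' hu
  -- a function which nearly attains the bound
  have hη : δ - (δ - δ') / (q + 1) ∉ Δ := by
    intro hmem
    have h3 := csInf_le hbdd hmem
    have h4 : 0 < (δ - δ') / (q + 1) := div_pos (by linarith) hqp
    linarith
  obtain ⟨g, hg⟩ : ∃ g, w.v (D g) + ((δ - (δ - δ') / (q + 1) : ℝ) : WithTop ℝ) < w.v g := by
    by_contra hno
    push Not at hno
    exact hη hno
  obtain ⟨a, b, ha, hb, hab⟩ := key g _ hg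
  have hld := (hLD R N th hth D hcra w u A s hw.le hs0 hu g a b ha hb).mono
    (show A - (a - b - s) ≤ A - δ' / (q + 1) by
      have e : s = δ - δ / (q + 1) := by rw [hs]; field_simp; ring
      have e2 : (δ - δ') / (q + 1) = δ / (q + 1) - δ' / (q + 1) := by rw [sub_div]
      rw [e2] at hab
      linarith)
  have hA' : 0 < A - δ' / (q + 1) := by
    rw [sub_pos, div_lt_iff₀ hqp]
    rw [div_lt_iff₀ hA] at hq1
    nlinarith
  have h3 := hw.min u (A - δ' / (q + 1)) hA' hld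
  have h4 : ENNReal.ofReal A ^ N * w.vol N ≤
      (ENNReal.ofReal (A - δ' / (q + 1)) ^ N * ENNReal.ofReal (1 + 1 / q)) * w.vol N := by
    rw [mul_assoc]
    exact h3.trans (mul_le_mul_right hvol _)
  have h5 : ENNReal.ofReal A ^ N ≤
      ENNReal.ofReal (A - δ' / (q + 1)) ^ N * ENNReal.ofReal (1 + 1 / q) :=
    (ENNReal.mul_le_mul_iff_left hw.vpos.ne' hw.vfin).mp h4
  rw [← ENNReal.ofReal_pow hA.le, ← ENNReal.ofReal_pow hA'.le,
    ← ENNReal.ofReal_mul (pow_pos hA' N).le] at h5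
  have hq0' : (0 : ℝ) < q := by linarith
  have h6 : A ^ N ≤ (A - δ' / (q + 1)) ^ N * (1 + 1 / q) :=
    (ENNReal.ofReal_le_ofReal_iff (by positivity)).mp h5
  -- the contradiction
  set t : ℝ := 1 / ((q : ℝ) + 1) with ht
  have ht0 : 0 < t := by positivity
  have e1 : A - δ' / (q + 1) = A * (1 - x * t) := by
    rw [hx, ht]; field_simp
  have e2 : (1 + 1 / (q : ℝ)) * (1 - t) = 1 := by rw [ht]; field_simp; ring
  rw [e1, mul_pow, mul_assoc] at h6
  have h7 : 1 ≤ (1 - x * t) ^ N * (1 + 1 / q) := by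
    have := pow_pos hA N
    exact le_of_mul_le_mul_left (by rwa [mul_one]) this
  have ht1 : t < 1 := by
    rw [ht, div_lt_one hqp]
    linarith
  have h8 : 1 - t ≤ (1 - x * t) ^ N := by
    have h9 : 0 ≤ 1 - t := by linarith
    calc 1 - t = 1 * (1 - t) := by ring
      _ ≤ ((1 - x * t) ^ N * (1 + 1 / q)) * (1 - t) := by gcongr
      _ = (1 - x * t) ^ N * ((1 + 1 / q) * (1 - t)) := by ring
      _ = (1 - x * t) ^ N := by rw [e2, mul_one]
  have hxpos : 0 < x := div_pos hδ'pos hA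
  have hxt : x * t ≤ 1 := by
    rw [ht, mul_one_div, div_le_one hqp]
    linarith
  have h10 := one_sub_pow_le (mul_pos hxpos ht0).le hxt N
  have h11 : (1 - t) * (1 + N * (x * t)) ≤ 1 := by
    refine le_trans ?_ h10
    have : 0 ≤ 1 + (N : ℝ) * (x * t) := by positivity
    gcongr
  have h12 : N * x - 1 ≤ N * x * t := by
    have h13 : t * (N * x - 1) ≤ t * (N * x * t) := by nlinarith
    exact le_of_mul_le_mul_left h13 ht0
  have h14 : (N * x - 1) * (q + 1) ≤ N * x := by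
    rw [ht, mul_one_div, le_div_iff₀ hqp] at h12
    exact h12
  rw [div_lt_iff₀ (by linarith)] at hq3
  nlinarith

end Pool.Agent.Helper88.T1
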