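import Pool.Agent.Helper11.SY.Df

/-!
MP_e1889a_ag: derivations and the minimizer of the normalized volume, definitions and statements of the
pieces.
-/

set_option autoImplicit false

namespace Pool.Agent.Helper88.T1

open IsLocalRing Filter Pool.Agent.Helper11.SY

noncomputable section

section Notions

variable {R : Type} [CommRing R] [Algebra ℂ R] [IsLocalRing R]

/-- `th` generates the module of `N`-vector fields: it is dual to a volume form. -/
structure IsGen {N : ℕ} (th : R [⋀^Fin N]→ₗ[ℂ] R) : Prop where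
  der : IsMultiDer R N th
  gen : ∀ δ : R [⋀^Fin N]→ₗ[ℂ] R, IsMultiDer R N δ → ∃ h : R, ∀ f, δ f = h * th f

/-- The log discrepancy of `w` is at most `A`. -/
def LDLe {N : ℕ} (th : R [⋀^Fin N]→ₗ[ℂ] R) (w : CVal R) (A : ℝ) : Prop :=
  ∀ f : Fin N → R, ∑ i, w.v (f i) ≤ w.v (th f) + (A : WithTop ℝ)

/-- `w` has log discrepancy at most `A` and positive finite volume, and `A ^ N * vol w` is at most the
normalized volume of every real valuation centred at the point. -/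
structure IsMinLe {N : ℕ} (th : R [⋀^Fin N]→ₗ[ℂ] R) (w : CVal R) (A : ℝ) : Prop where
  pos : 0 < A
  le : LDLe th w A
  vpos : 0 < w.vol N
  vfin : w.vol N ≠ ⊤
  min : ∀ (w' : CVal R) (A' : ℝ), 0 < A' → LDLe th w' A' →
    ENNReal.ofReal A ^ N * w.vol N ≤ ENNReal.ofReal A' ^ N * w'.vol N

/-- `u f = min_j (w (D ^ j f) + j s)` -/
structure IsFlow (w : CVal R) (D : Derivation ℂ R R) (s : ℝ) (u : CVal R) : Prop where
  le : ∀ (f : R) (j : ℕ), u.v f ≤ w.v ((D : R → R)^[j] f) + ((j * s : ℝ) : WithTop ℝ)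
  eq : ∀ f : R, ∃ j : ℕ, u.v f = w.v ((D : R → R)^[j] f) + ((j * s : ℝ) : WithTop ℝ)

end Notions

/-- (VAL) the flow valuation -/
def S_VAL : Prop := ∀ (R : Type) [CommRing R] [Algebra ℂ R] [IsDomain R] [IsLocalRing R]
  (w : CVal R) (D : Derivation ℂ R R) (s : ℝ), 0 < s → ∃ u : CVal R, IsFlow w D s u

/-- (CRA) Cramer's rule -/
def S_CRA : Prop := ∀ (R : Type) [CommRing R] [Algebra ℂ R] [IsDomain R] [IsLocalRing R]
  [IsNoetherianRing R] [IsAdicComplete (maximalIdeal R) R],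
  (∀ f : R, ∃ c : ℂ, f - algebraMap ℂ R c ∈ maximalIdeal R) → ∀ N : ℕ, 1 ≤ N →
    ringKrullDim R = ((N : ℕ) : WithBot ℕ∞) → ∀ th : R [⋀^Fin N]→ₗ[ℂ] R, IsGen th →
      ∀ (D : Derivation ℂ R R) (f : Fin N → R) (g : R),
        D g * th f = ∑ i, D (f i) * th (Function.update f i g)

/-- (LD) the log discrepancy of the flow valuation -/
def S_LD : Prop := ∀ (R : Type) [CommRing R] [Algebra ℂ R] [IsDomain R] [IsLocalRing R] (N : ℕ)
  (th : R [⋀^Fin N]→ₗ[ℂ] R), IsGen th → ∀ D : Derivation ℂ R R,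
    (∀ (f : Fin N → R) (g : R), D g * th f = ∑ i, D (f i) * th (Function.update f i g)) →
    ∀ (w u : CVal R) (A s : ℝ), LDLe th w A → 0 < s → IsFlow w D s u →
      ∀ (g : R) (x y : ℝ), w.v g = (x : WithTop ℝ) → w.v (D g) = (y : WithTop ℝ) →
        LDLe th u (A - (x - y - s))

/-- (COL) the volume of the flow valuation -/
def S_COL : Prop := ∀ (R : Type) [CommRing R] [Algebra ℂ R] [IsDomain R] [IsLocalRing R]
  [IsNoetherianRing R], (∀ f : R, ∃ c : ℂ, f - algebraMap ℂ R c ∈ maximalIdeal R) →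
    ∀ (N : ℕ) (w u : CVal R) (D : Derivation ℂ R R) (δ : ℝ) (q : ℕ), 1 ≤ N → 0 < δ → 1 ≤ q →
      (∀ f, w.v f ≤ w.v (D f) + (δ : WithTop ℝ)) → IsFlow w D (δ * q / (q + 1)) u →
        u.vol N ≤ ENNReal.ofReal (1 + 1 / q) * w.vol N

/-- (FIN) a derivation has bounded order -/
def S_FIN : Prop := ∀ (R : Type) [CommRing R] [Algebra ℂ R] [IsDomain R] [IsLocalRing R] (N : ℕ)
  (th : R [⋀^Fin N]→ₗ[ℂ] R), IsGen th → th ≠ 0 → ∀ D : Derivation ℂ R R,
    (∀ (f : Fin N → R) (g : R), D g * th f = ∑ i, D (f i) * th (Function.update f i g)) →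
    ∀ (w : CVal R) (A : ℝ), LDLe th w A → ∃ δ : ℝ, ∀ f, w.v f ≤ w.v (D f) + (δ : WithTop ℝ)

/-- the theorem -/
def S_T1 : Prop := ∀ (R : Type) [CommRing R] [Algebra ℂ R] [IsDomain R] [IsLocalRing R]
  [IsNoetherianRing R] [IsAdicComplete (maximalIdeal R) R],
  (∀ f : R, ∃ c : ℂ, f - algebraMap ℂ R c ∈ maximalIdeal R) → ∀ N : ℕ, 1 ≤ N →
    ringKrullDim R = ((N : ℕ) : WithBot ℕ∞) → ∀ th : R [⋀^Fin N]→ₗ[ℂ] R, IsGen th →
      ∀ (w : CVal R) (A : ℝ), IsMinLe th w A → ∀ (D : Derivation ℂ R R) (f : R),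
        w.v f ≤ w.v (D f) + ((A / N : ℝ) : WithTop ℝ)

end

end Pool.Agent.Helper88.T1
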