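import Pool.Agent.Helper88.T1.Clo

/-!
# MP_e1889a_ag: derivations and the minimizer of the normalized volume

`R` is the completed local ring of a klt germ `x ∈ X` of dimension `N` with a nowhere vanishing volume
form `Ω`; `th` is the `N`-vector field dual to `Ω` (for a symplectic germ of dimension `N = 2 n` and
`Ω = ω ^ n / n!`, the Pfaffian of the Poisson bracket).  `w` is a minimizer of the normalized volume and
`A` its log discrepancy.

Every derivation `D` of `R` satisfies `w (D f) ≥ w f - A / N`; so Poisson brackets satisfy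
`w {f, g} ≥ max (w f) (w g) - A / N`.  The degeneration of the symplectic form `ω` is a symplectic form
iff `w {f, g} ≥ w f + w g - A / n` for all `f`, `g`.
-/

set_option autoImplicit false

namespace Pool.Agent.Helper88.T1.Res

open IsLocalRing Pool.Agent.Helper11.SY Pool.Agent.Helper88.T1

theorem result (R : Type) [CommRing R] [Algebra ℂ R] [IsDomain R] [IsLocalRing R]
    [IsNoetherianRing R] [IsAdicComplete (maximalIdeal R) R]
    (hres : ∀ f : R, ∃ c : ℂ, f - algebraMap ℂ R c ∈ maximalIdeal R)
    (N : ℕ) (hN : 1 ≤ N) (hdim : ringKrullDim R = ((N : ℕ) : WithBot ℕ∞))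
    -- the `N`-vector field and the minimizer
    (th : R [⋀^Fin N]→ₗ[ℂ] R) (hth : IsGen th) (w : CVal R) (A : ℝ) (hw : IsMinLe th w A) :
    (∀ (D : Derivation ℂ R R) (f : R), w.v f ≤ w.v (D f) + ((A / N : ℝ) : WithTop ℝ)) ∧
    ∀ br : R →ₗ[ℂ] Derivation ℂ R R, (∀ f, br f f = 0) →
      ∀ f g : R, max (w.v f) (w.v g) ≤ w.v (br f g) + ((A / N : ℝ) : WithTop ℝ) := by
  have h1 := derivation_bound R hres N hN hdim th hth w A hw
  refine ⟨h1, fun br hbr f g => max_le ?_ (h1 (br f) g)⟩
  have h2 : br f g = -br g f := by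
    have h3 := hbr (f + g)
    simp only [map_add, Derivation.add_apply, hbr, zero_add, add_zero] at h3
    exact eq_neg_of_add_eq_zero_right h3
  rw [h2, w.v.map_neg]
  exact h1 (br g) f

end Pool.Agent.Helper88.T1.Res
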